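import Pool.Agent.RAT.D.Defs

/-!
(D2) Cutting a walk at a vertex: initial piece in the domain, the rest is a walk of the whole lattice.
-/

namespace Pool.Agent.RAT

open Pool.Agent.Hhelper14.SAW

/-- Move `v` to `o` and back (an involution up to translation): vertices of type 0 by a translation, vertices of type 2 by a
point reflection. `tv v` maps `o` to `v`. -/
def tv (v z : ℤ × ℤ) : ℤ × ℤ := if (v.1 - v.2) % 3 = 0 then z + v else v - z

/-- The inverse of `tv v`. -/
def tw (v z : ℤ × ℤ) : ℤ × ℤ := if (v.1 - v.2) % 3 = 0 then z - v else v - z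

lemma tv_tw (v z : ℤ × ℤ) : tv v (tw v z) = z := by
  unfold tv tw
  split_ifs <;> abel

lemma tw_tv (v z : ℤ × ℤ) : tw v (tv v z) = z := by
  unfold tv tw
  split_ifs <;> abel

lemma tw_self (v : ℤ × ℤ) : tw v v = o := by
  unfold tw o
  split_ifs <;> simp <;> rfl

lemma tv_o (v : ℤ × ℤ) : tv v o = v := by
  unfold tv o
  split_ifs <;> ext <;> simp

lemma tw_inj (v : ℤ × ℤ) : Function.Injective (tw v) := fun x y h => by
  rw [← tv_tw v x, h, tv_tw]

lemma tw_adj {v x y : ℤ × ℤ} (hv : hon v) (h : Adj x y) : Adj (tw v x) (tw v y) := by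
  obtain ⟨v1, v2⟩ := v
  obtain ⟨x1, x2⟩ := x
  obtain ⟨y1, y2⟩ := y
  obtain ⟨h1, h2, h3⟩ := h
  simp only [hon] at hv h1 h2
  simp only [U, Prod.mk_sub_mk] at h3
  unfold Adj tw
  split_ifs with h0 <;> simp only [Prod.mk_sub_mk, hon, U] at h0 ⊢ <;> omega

/-- The rest of a walk, moved to `o`. -/
lemma isWalk_map_tw {v : ℤ × ℤ} {i : ℕ} {L : List (ℤ × ℤ)} (hv : hon v) (h1 : L.length = i + 1)
    (h2 : L.Nodup) (h3 : HChain L) (h4 : L.getLast? = some v) : IsWalk i (L.map (tw v)) := by
  refine ⟨by simpa using h1, h2.map (tw_inj v), ?_, ?_⟩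
  · unfold HChain at h3 ⊢
    rw [List.isChain_map]
    exact h3.imp fun _ _ h => tw_adj hv h
  · rw [List.getLast?_map, h4]
    simp [tw_self]

/-- Glue: the walk `P` followed by the walk `R` moved to the end vertex of `P`. -/
def glue (P R : List (ℤ × ℤ)) : List (ℤ × ℤ) := (R.map (tv P.headI)).dropLast ++ P

/-- Every walk of `k + i` steps in the domain is a walk of `k` steps in the domain, glued with a walk of `i` steps. -/
lemma exists_glue {b : Bool} {k i : ℕ} {P : List (ℤ × ℤ)} (h : P ∈ W b (k + i)) :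
    ∃ R, P.drop i ∈ W b k ∧ IsWalk i R ∧ P = glue (P.drop i) R := by
  obtain ⟨h, hD⟩ := h
  obtain ⟨h1, h2, h3, h4⟩ := h
  have hlen : (P.drop i).length = k + 1 := by simp [h1]; omega
  match hd : P.drop i, hlen with
  | v :: t, hlen =>
    have hP : P = P.take i ++ v :: t := by rw [← hd, List.take_append_drop]
    have hv : hon v := by
      by_cases ht : t = []
      · rw [hP, ht] at h4
        have : v = o := by simpa using h4
        rw [this]; decide
      · obtain ⟨y, s, rfl⟩ := List.exists_cons_of_ne_nil ht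
        rw [hP] at h3
        have := (List.isChain_append.1 h3).2.1
        exact (List.isChain_cons_cons.1 this).1.1
    have hP2 : P = (P.take i ++ [v]) ++ t := by
      conv_lhs => rw [hP]
      simp
    have hlt : (P.take i).length = i := by simp [h1]; omega
    refine ⟨(P.take i ++ [v]).map (tw v), ⟨⟨hlen, ?_, ?_, ?_⟩, ?_⟩, ?_, ?_⟩
    · rw [hP] at h2
      exact (List.nodup_append.1 h2).2.1
    · rw [hP] at h3
      exact (List.isChain_append.1 h3).2.1
    · rw [hP, List.getLast?_append] at h4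
      simpa using h4
    · intro z hz
      apply hD
      rw [hP]
      exact List.mem_append_right _ hz
    · refine isWalk_map_tw hv (by simp [hlt]) ?_ ?_ (by simp)
      · rw [hP2] at h2
        exact (List.nodup_append.1 h2).1
      · rw [hP2] at h3
        exact (List.isChain_append.1 h3).1
    · unfold glue
      rw [List.headI_cons, List.map_map]
      have : (tv v ∘ tw v) = id := by funext z; simp [tv_tw]
      rw [this, List.map_id, List.dropLast_concat]
      exact hP

/-- (H1) -/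
theorem cn_add_le (b : Bool) (n m : ℕ) : cn b (n + m) ≤ cn b n * an m := by
  have key : W b (n + m) ⊆ (fun q : List (ℤ × ℤ) × List (ℤ × ℤ) => glue q.1 q.2) ''
      (W b n ×ˢ {R | IsWalk m R}) := by
    intro P hP
    obtain ⟨R, h1, h2, h3⟩ := exists_glue hP
    exact ⟨(P.drop m, R), ⟨h1, h2⟩, h3.symm⟩
  have hf : (W b n ×ˢ {R | IsWalk m R}).Finite := (W_finite b n).prod (walk_finite m)
  have e : ∀ k, cn b k = (W b k).ncard := fun k => by
    unfold cn WF
    rw [← Set.ncard_eq_toFinset_card _ (W_finite b k)]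
  rw [e, e]
  calc (W b (n + m)).ncard ≤ _ := Set.ncard_le_ncard key (hf.image _)
    _ ≤ (W b n ×ˢ {R | IsWalk m R}).ncard := Set.ncard_image_le hf
    _ = (W b n).ncard * an m := by rw [Set.ncard_prod]; rfl

/-- (D2) -/
theorem dn_add_le (k l i j : ℕ) : dn (k + i) (l + j) ≤ dn k l * an i * an j := by
  have key : PD (k + i) (l + j) ⊆
      (fun q : (List (ℤ × ℤ) × List (ℤ × ℤ)) × List (ℤ × ℤ) × List (ℤ × ℤ) =>
        (glue q.1.1 q.2.1, glue q.1.2 q.2.2)) '' (PD k l ×ˢ ({R | IsWalk i R} ×ˢ {R | IsWalk j R})) := by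
    rintro ⟨P, Q⟩ ⟨hP, hQ, hd⟩
    obtain ⟨R, h1, h2, h3⟩ := exists_glue hP
    obtain ⟨S, h4, h5, h6⟩ := exists_glue hQ
    refine ⟨((P.drop i, Q.drop j), R, S), ⟨⟨h1, h4, ?_⟩, h2, h5⟩, ?_⟩
    · intro z hz hzo hz'
      exact hd z (List.mem_of_mem_drop hz) hzo (List.mem_of_mem_drop hz')
    · exact Prod.ext h3.symm h6.symm
  have hf : (PD k l ×ˢ ({R | IsWalk i R} ×ˢ {R | IsWalk j R})).Finite :=
    (PD_finite k l).prod ((walk_finite i).prod (walk_finite j))
  unfold dn
  calc (PD (k + i) (l + j)).ncard ≤ _ := Set.ncard_le_ncard key (hf.image _)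
    _ ≤ (PD k l ×ˢ ({R | IsWalk i R} ×ˢ {R | IsWalk j R})).ncard := Set.ncard_image_le hf
    _ = (PD k l).ncard * an i * an j := by
      rw [Set.ncard_prod, Set.ncard_prod, mul_assoc]; rfl

/-- (D3) -/
theorem dn_le (k l : ℕ) : dn k l ≤ cn true k * cn true l := by
  have e : ∀ k, cn true k = (W true k).ncard := fun k => by
    unfold cn WF
    rw [← Set.ncard_eq_toFinset_card _ (W_finite true k)]
  rw [e, e, ← Set.ncard_prod]
  exact Set.ncard_le_ncard (fun q h => ⟨h.1, h.2.1⟩) ((W_finite true k).prod (W_finite true l))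

end Pool.Agent.RAT
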