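import Pool.Agent.RAT.D.Cut2

/-!
(D1) Cutting a walk of the plane at a leftmost vertex.
-/

namespace Pool.Agent.RAT

open Pool.Agent.Hhelper14.SAW

/-- Walks with a leftmost vertex of type 0. -/
def LM (m : ℕ) : Set (List (ℤ × ℤ)) :=
  {P | IsWalk m P ∧ ∃ z ∈ P, (z.1 - z.2) % 3 = 0 ∧ ∀ w ∈ P, F0 z ≤ F0 w}

/-- Glue two walks from `o` at `o` and move the end of the second to `o`. -/
def jn (P Q : List (ℤ × ℤ)) : List (ℤ × ℤ) := (P.dropLast ++ Q.reverse).map (fun z => z - Q.headI)

lemma sub_adj {v x y : ℤ × ℤ} (hv : (v.1 - v.2) % 3 = 0) (h : Adj x y) : Adj (x - v) (y - v) := by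
  obtain ⟨v1, v2⟩ := v
  obtain ⟨x1, x2⟩ := x
  obtain ⟨y1, y2⟩ := y
  obtain ⟨h1, h2, h3⟩ := h
  simp only [hon] at hv h1 h2
  simp only [U, Prod.mk_sub_mk] at h3
  simp only [Adj, Prod.mk_sub_mk, hon, U]
  omega

lemma LM_sub (m : ℕ) : LM m ⊆ ⋃ p ∈ Finset.HasAntidiagonal.antidiagonal m, (fun q => jn q.1 q.2) '' PD p.1 p.2 := by
  rintro P ⟨⟨h1, h2, h3, h4⟩, z, hz, hz0, hmin⟩
  obtain ⟨p, r, rfl⟩ := List.append_of_mem hz
  have e : p ++ z :: r = (p ++ [z]) ++ r := by simp
  have hlen : p.length + r.length = m := by simp at h1; omega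
  have inj : Function.Injective (fun w : ℤ × ℤ => w - z) := fun x y h => by simpa using h
  have hF : ∀ w ∈ p ++ z :: r, 0 ≤ F0 (w - z) := by
    intro w hw
    have := hmin w hw
    simp only [F0, Prod.fst_sub, Prod.snd_sub] at this ⊢
    omega
  simp only [Set.mem_iUnion]
  refine ⟨(p.length, r.length), by simpa using hlen,
    ((p ++ [z]).map (fun w => w - z), ((z :: r).reverse).map (fun w => w - z)), ⟨⟨⟨?_, ?_, ?_, ?_⟩, ?_⟩,
      ⟨⟨?_, ?_, ?_, ?_⟩, ?_⟩, ?_⟩, ?_⟩
  · simp
  · rw [e] at h2
    exact ((List.nodup_append.1 h2).1).map inj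
  · rw [e] at h3
    have := (List.isChain_append.1 h3).1
    unfold HChain at this ⊢
    rw [List.isChain_map]
    exact this.imp fun _ _ h => sub_adj hz0 h
  · simp [o]; rfl
  · intro w hw
    obtain ⟨x, hx, rfl⟩ := List.mem_map.1 hw
    intro _
    apply hF
    rw [e]
    exact List.mem_append_left _ hx
  · simp
  · have := (List.nodup_append.1 h2).2.1
    exact (List.nodup_reverse.2 this).map inj
  · have := (List.isChain_append.1 h3).2.1
    unfold HChain
    rw [List.isChain_map, List.isChain_reverse]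
    exact this.imp fun _ _ h => (sub_adj hz0 h).symm
  · simp [o]; rfl
  · intro w hw
    obtain ⟨x, hx, rfl⟩ := List.mem_map.1 hw
    intro _
    apply hF
    exact List.mem_append_right _ (List.mem_reverse.1 hx)
  · intro w hw hwo hw'
    obtain ⟨x, hx, rfl⟩ := List.mem_map.1 hw
    obtain ⟨y, hy, hxy⟩ := List.mem_map.1 hw'
    have hyx : y = x := inj hxy
    subst hyx
    rw [List.mem_append] at hx
    rcases hx with hx | hx
    · have := (List.nodup_append.1 h2).2.2 y hx y (List.mem_reverse.1 hy)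
      exact this rfl
    · rw [List.mem_singleton] at hx
      subst hx
      apply hwo
      simp [o]; rfl
  · have hl : (z :: r).getLast? = some o := by
      rw [List.getLast?_append] at h4
      simpa using h4
    have hh : (((z :: r).reverse).map (fun w => w - z)).headI = o - z := by
      have h5 : (z :: r).reverse.head? = some o := by rw [List.head?_reverse, hl]
      obtain ⟨t, ht⟩ : ∃ t, (z :: r).reverse = o :: t := by
        cases hc : (z :: r).reverse with
        | nil => rw [hc] at h5; simp at h5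
        | cons x t => rw [hc] at h5; simp at h5; exact ⟨t, by rw [h5]⟩
      rw [ht]; rfl
    simp only [jn]
    rw [hh, List.map_append (l₁ := p), List.map_singleton, List.dropLast_concat, ← List.map_reverse,
      List.reverse_reverse, ← List.map_append, List.map_map]
    have : ((fun w : ℤ × ℤ => w - (o - z)) ∘ fun w => w - z) = id := by
      funext w
      simp only [Function.comp, id]
      have : o = (0 : ℤ × ℤ) := rfl
      rw [this]; abel
    rw [this, List.map_id]

lemma LM_finite (m : ℕ) : (LM m).Finite := (walk_finite m).subset fun _ h => h.1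

lemma LM_le (m : ℕ) : (LM m).ncard ≤ ∑ p ∈ Finset.HasAntidiagonal.antidiagonal m, dn p.1 p.2 := by
  classical
  have hf : ∀ p ∈ Finset.HasAntidiagonal.antidiagonal m, ((fun q => jn q.1 q.2) '' PD p.1 p.2).Finite :=
    fun p _ => (PD_finite _ _).image _
  refine (Set.ncard_le_ncard (LM_sub m) (Set.Finite.biUnion (Finset.finite_toSet _) hf)).trans ?_
  refine (Finset.set_ncard_biUnion_le _ _).trans (Finset.sum_le_sum fun p _ => ?_)
  exact Set.ncard_image_le (PD_finite _ _)

lemma nb2 {z x : ℤ × ℤ} (h : Adj z x) (hz : (z.1 - z.2) % 3 = 2) (hF : F0 z ≤ F0 x) : x = z + (1, 0) := by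
  obtain ⟨z1, z2⟩ := z
  obtain ⟨x1, x2⟩ := x
  obtain ⟨h1, h2, h3⟩ := h
  simp only [hon] at hz h1 h2
  simp only [U, Prod.mk_sub_mk] at h3
  simp only [F0] at hF
  simp only [Prod.mk_add_mk, Prod.mk.injEq]
  omega

/-- A walk whose leftmost vertices are all of type 2 ends there. -/
lemma walk_sub (m : ℕ) : {P | IsWalk (m + 1) P} ⊆
    LM (m + 1) ∪ (fun P : List (ℤ × ℤ) => (P.headI - (1, 0)) :: P) '' LM m := by
  intro P hP
  by_cases hL : P ∈ LM (m + 1)
  · exact Or.inl hL
  right
  have hon' := hon_of_walk hP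
  have hP' := hP
  obtain ⟨h1, h2, h3, h4⟩ := hP'
  -- leftmost vertices are of type 2
  have key : ∀ z ∈ P, (∀ w ∈ P, F0 z ≤ F0 w) → (z.1 - z.2) % 3 = 2 := by
    intro z hz hmin
    by_contra hc
    apply hL
    refine ⟨hP, z, hz, ?_, hmin⟩
    have := hon' z hz
    simp only [hon] at this
    omega
  -- and they are the head
  have key2 : ∀ z ∈ P, (∀ w ∈ P, F0 z ≤ F0 w) → ∃ y r, P = z :: y :: r ∧ z = y - (1, 0) := by
    intro z hz hmin
    have hz2 := key z hz hmin
    obtain ⟨p, r, rfl⟩ := List.append_of_mem hz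
    match r with
    | [] =>
      exfalso
      rw [List.getLast?_append] at h4
      simp at h4
      rw [h4] at hz2
      simp [o] at hz2
    | y :: r =>
      have hc := (List.isChain_append.1 h3).2.1
      have hzy : Adj z y := (List.isChain_cons_cons.1 hc).1
      have hy : y = z + (1, 0) := nb2 hzy hz2 (hmin y (by simp))
      rcases List.eq_nil_or_concat p with rfl | ⟨p', x, rfl⟩
      · exact ⟨y, r, rfl, by rw [hy]; abel⟩
      · exfalso
        have e : p'.concat x ++ z :: y :: r = p' ++ x :: z :: y :: r := by simp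
        rw [e] at h2 h3
        have hc := (List.isChain_append.1 h3).2.1
        have hxz : Adj x z := (List.isChain_cons_cons.1 hc).1
        have hx : x = z + (1, 0) := nb2 hxz.symm hz2 (hmin x (by simp))
        have := (List.nodup_append.1 h2).2.1
        rw [List.nodup_cons] at this
        apply this.1
        rw [hx, ← hy]
        simp
  have hne : P.toFinset.Nonempty := by
    rw [List.toFinset_nonempty_iff]
    rintro rfl; simp at h1
  obtain ⟨z, hz, hmin⟩ := Finset.exists_min_image P.toFinset F0 hne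
  simp only [List.mem_toFinset] at hz hmin
  obtain ⟨y, r, rfl, hzy⟩ := key2 z hz hmin
  have hz2 := key z hz hmin
  refine ⟨y :: r, ⟨⟨by simpa using h1, (List.nodup_cons.1 h2).2, (List.isChain_cons_cons.1 h3).2,
    by simpa using h4⟩, y, by simp, ?_, ?_⟩, ?_⟩
  · rw [hzy] at hz2
    simp only [Prod.fst_sub, Prod.snd_sub] at hz2
    omega
  · intro w hw
    have hw' := hmin w (List.mem_cons_of_mem _ hw)
    have hhw := hon' w (List.mem_cons_of_mem _ hw)
    have hne : F0 w ≠ F0 z := by
      intro he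
      obtain ⟨y', r', he', -⟩ := key2 w (List.mem_cons_of_mem _ hw) (fun v hv => he ▸ hmin v hv)
      rw [List.cons.injEq] at he'
      rw [← he'.1] at hw
      exact (List.nodup_cons.1 h2).1 hw
    obtain ⟨w1, w2⟩ := w
    obtain ⟨y1, y2⟩ := y
    obtain ⟨z1, z2⟩ := z
    simp only [F0, hon, Prod.mk_sub_mk, Prod.mk.injEq] at *
    omega
  · rw [hzy]; rfl

/-- (D1), sharp form. -/
theorem an_succ_le (m : ℕ) : an (m + 1) ≤
    ∑ p ∈ Finset.HasAntidiagonal.antidiagonal (m + 1), dn p.1 p.2 + ∑ p ∈ Finset.HasAntidiagonal.antidiagonal m, dn p.1 p.2 := by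
  have hf1 := LM_finite (m + 1)
  have hf2 := (LM_finite m).image (fun P : List (ℤ × ℤ) => (P.headI - (1, 0)) :: P)
  calc an (m + 1) ≤ _ := Set.ncard_le_ncard (walk_sub m) (hf1.union hf2)
    _ ≤ _ := Set.ncard_union_le _ _
    _ ≤ _ := Nat.add_le_add (LM_le _) ((Set.ncard_image_le (LM_finite m)).trans (LM_le _))

/-- (D1) -/
theorem an_le_sum (m : ℕ) : an m ≤
    ∑ i ∈ Finset.range 3, ∑ p ∈ Finset.HasAntidiagonal.antidiagonal (m - i), dn p.1 p.2 := by
  rw [Finset.sum_range_succ, Finset.sum_range_succ, Finset.sum_range_one]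
  rcases m with _ | m
  · have h0 : {P | IsWalk 0 P} ⊆ LM 0 := by
      intro P hP
      refine ⟨hP, o, ?_, by decide, ?_⟩
      · exact List.mem_of_getLast? hP.2.2.2
      · intro w hw
        obtain ⟨h1, h2, h3, h4⟩ := hP
        match P, h1 with
        | [x], _ =>
          rw [List.mem_singleton] at hw
          simp at h4
          rw [hw, h4]
    have : an 0 ≤ (LM 0).ncard := Set.ncard_le_ncard h0 (LM_finite 0)
    have := this.trans (LM_le 0)
    simp only [Nat.zero_sub, Nat.sub_zero] at this ⊢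
    omega
  · have := an_succ_le m
    simp only [Nat.sub_zero, Nat.add_sub_cancel]
    omega

end Pool.Agent.RAT
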