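import Mathlib

/-!
Project RAT, the real analysis of the lower bound for disjoint pairs of half-plane walks.

`A`, `h`, `D` are the normalised numbers of walks of the whole lattice, of the half plane, and of the disjoint
pairs of half-plane walks; `q` = half-plane walks without cut line, `be` = bridges, `io` = irreducible bridges.
-/

namespace Pool.Agent.RAT

open Finset

/-- Partial sums of a generating function. -/
noncomputable def gs (f : ℕ → ℝ) (y : ℝ) (N : ℕ) : ℝ := ∑ n ∈ range N, f n * y ^ n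

/-- Cauchy product. -/
noncomputable def cv (f g : ℕ → ℝ) (n : ℕ) : ℝ := ∑ p ∈ antidiagonal n, f p.1 * g p.2

lemma gs_nonneg {f : ℕ → ℝ} (hf : ∀ n, 0 ≤ f n) {y : ℝ} (hy : 0 ≤ y) (N : ℕ) : 0 ≤ gs f y N :=
  sum_nonneg fun n _ => mul_nonneg (hf n) (pow_nonneg hy n)

lemma gs_mono {f g : ℕ → ℝ} (h : ∀ n, f n ≤ g n) {y : ℝ} (hy : 0 ≤ y) (N : ℕ) : gs f y N ≤ gs g y N :=
  sum_le_sum fun n _ => mul_le_mul_of_nonneg_right (h n) (pow_nonneg hy n)

lemma disj_anti (N : ℕ) : Set.PairwiseDisjoint (↑(range N)) (fun n => antidiagonal n : ℕ → Finset (ℕ × ℕ)) := by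
  intro a _ b _ hab
  simp only [Function.onFun]
  rw [disjoint_left]
  rintro ⟨i, j⟩ h1 h2
  rw [HasAntidiagonal.mem_antidiagonal] at h1 h2
  exact hab (h1.symm.trans h2)

lemma sum_anti (F : ℕ × ℕ → ℝ) (N : ℕ) :
    ∑ n ∈ range N, ∑ p ∈ antidiagonal n, F p = ∑ p ∈ (range N).biUnion (fun n => antidiagonal n), F p :=
  (sum_biUnion (disj_anti N)).symm

lemma sum_anti_le {F : ℕ × ℕ → ℝ} (hF : ∀ p, 0 ≤ F p) (N : ℕ) :
    ∑ n ∈ range N, ∑ p ∈ antidiagonal n, F p ≤ ∑ k ∈ range N, ∑ l ∈ range N, F (k, l) := by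
  rw [sum_anti, ← sum_product']
  refine sum_le_sum_of_subset_of_nonneg ?_ fun p _ _ => hF p
  rintro ⟨i, j⟩ h
  simp only [mem_biUnion, mem_range, HasAntidiagonal.mem_antidiagonal] at h
  obtain ⟨n, hn, h⟩ := h
  simp only [mem_product, mem_range]
  omega

lemma le_sum_anti {F : ℕ × ℕ → ℝ} (hF : ∀ p, 0 ≤ F p) (N : ℕ) :
    ∑ k ∈ range N, ∑ l ∈ range N, F (k, l) ≤ ∑ n ∈ range (2 * N), ∑ p ∈ antidiagonal n, F p := by
  rw [sum_anti, ← sum_product']
  refine sum_le_sum_of_subset_of_nonneg ?_ fun p _ _ => hF p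
  rintro ⟨i, j⟩ h
  simp only [mem_product, mem_range] at h
  simp only [mem_biUnion, mem_range, HasAntidiagonal.mem_antidiagonal]
  exact ⟨i + j, by omega, rfl⟩

lemma cv_mul (f g : ℕ → ℝ) (y : ℝ) (n : ℕ) :
    cv f g n * y ^ n = ∑ p ∈ antidiagonal n, (f p.1 * y ^ p.1) * (g p.2 * y ^ p.2) := by
  unfold cv
  rw [sum_mul]
  refine sum_congr rfl fun p hp => ?_
  rw [HasAntidiagonal.mem_antidiagonal] at hp
  rw [← hp, pow_add]
  ring

lemma gs_cv_le {f g : ℕ → ℝ} (hf : ∀ n, 0 ≤ f n) (hg : ∀ n, 0 ≤ g n) {y : ℝ} (hy : 0 ≤ y) (N : ℕ) :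
    gs (cv f g) y N ≤ gs f y N * gs g y N := by
  unfold gs
  simp only [cv_mul]
  rw [sum_mul_sum]
  exact sum_anti_le (F := fun p => (f p.1 * y ^ p.1) * (g p.2 * y ^ p.2)) (fun p =>
    mul_nonneg (mul_nonneg (hf _) (pow_nonneg hy _)) (mul_nonneg (hg _) (pow_nonneg hy _))) N

lemma le_gs_cv {f g : ℕ → ℝ} (hf : ∀ n, 0 ≤ f n) (hg : ∀ n, 0 ≤ g n) {y : ℝ} (hy : 0 ≤ y) (N : ℕ) :
    gs f y N * gs g y N ≤ gs (cv f g) y (2 * N) := by
  unfold gs
  simp only [cv_mul]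
  rw [sum_mul_sum]
  exact le_sum_anti (F := fun p => (f p.1 * y ^ p.1) * (g p.2 * y ^ p.2)) (fun p =>
    mul_nonneg (mul_nonneg (hf _) (pow_nonneg hy _)) (mul_nonneg (hg _) (pow_nonneg hy _))) N

/-- The renewal bound. -/
lemma ren_le {be io : ℕ → ℝ} (hbe : ∀ n, 0 ≤ be n) (hio : ∀ n, 0 ≤ io n)
    (h6 : ∀ n, be n ≤ (if n = 0 then 1 else 0) + cv io be n) (h7 : ∀ N, ∑ i ∈ range N, io i ≤ 1)
    {δ : ℝ} (hδ : 0 < δ) (h8 : δ ≤ io 2) {y : ℝ} (hy : 0 ≤ y) (hy1 : y < 1) {N : ℕ} (hN : 3 ≤ N) :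
    gs be y N ≤ 1 / (δ * (1 - y)) := by
  have h1 : gs be y N ≤ 1 + gs io y N * gs be y N := by
    refine (gs_mono h6 hy N).trans ?_
    have e1 : gs (fun n => (if n = 0 then 1 else 0) + cv io be n) y N =
        ∑ n ∈ range N, (if n = 0 then 1 else 0) * y ^ n + gs (cv io be) y N := by
      unfold gs
      rw [← sum_add_distrib]
      exact sum_congr rfl fun n _ => by ring
    have e2 : ∑ n ∈ range N, (if n = 0 then (1 : ℝ) else 0) * y ^ n = 1 := by
      rw [sum_eq_single 0]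
      · simp
      · intro b _ hb; simp [hb]
      · intro h; exact absurd (mem_range.2 (by omega)) h
    rw [e1, e2]
    have := gs_cv_le hio hbe hy N
    linarith
  have h2 : gs io y N ≤ 1 - δ * (1 - y) := by
    have e1 : gs io y N = ∑ i ∈ range N, io i - ∑ i ∈ range N, io i * (1 - y ^ i) := by
      unfold gs
      rw [← sum_sub_distrib]
      exact sum_congr rfl fun n _ => by ring
    have e2 : io 2 * (1 - y ^ 2) ≤ ∑ i ∈ range N, io i * (1 - y ^ i) := by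
      refine single_le_sum (f := fun i => io i * (1 - y ^ i)) (fun i _ => ?_) (mem_range.2 (by omega))
      exact mul_nonneg (hio i) (sub_nonneg.2 (pow_le_one₀ hy hy1.le))
    have e3 : δ * (1 - y) ≤ io 2 * (1 - y ^ 2) := by
      have : 1 - y ≤ 1 - y ^ 2 := by nlinarith
      exact mul_le_mul h8 this (by linarith) (hδ.le.trans h8)
    rw [e1]
    linarith [h7 N]
  have h3 : 0 ≤ gs be y N := gs_nonneg hbe hy N
  rw [le_div_iff₀ (mul_pos hδ (by linarith))]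
  have h4 : gs io y N * gs be y N ≤ (1 - δ * (1 - y)) * gs be y N := mul_le_mul_of_nonneg_right h2 h3
  nlinarith

lemma shift1 {g : ℕ → ℝ} (hg : ∀ n, 0 ≤ g n) (N : ℕ) : ∑ m ∈ range N, g (m - 1) ≤ 2 * ∑ m ∈ range N, g m := by
  cases N with
  | zero => simp
  | succ N =>
    rw [sum_range_succ' (fun m => g (m - 1))]
    simp only [Nat.add_sub_cancel, Nat.zero_sub]
    have h1 : ∑ m ∈ range N, g m ≤ ∑ m ∈ range (N + 1), g m :=
      sum_le_sum_of_subset_of_nonneg (range_subset_range.2 (Nat.le_succ N)) fun i _ _ => hg i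
    have h2 : g 0 ≤ ∑ m ∈ range (N + 1), g m :=
      single_le_sum (f := g) (fun i _ => hg i) (mem_range.2 (Nat.succ_pos N))
    linarith

/-- Summability and the upper bound of the generating function at `y = 1 - 1/T`. -/
lemma up_sum {A : ℕ → ℝ} (A0 : ∀ n, 0 ≤ A n) {K : ℝ} (hK : 0 < K) {E : ℕ}
    (hup : ∀ n : ℕ, A n ≤ K * ((n : ℝ) + 1) ^ E) {T : ℝ} (hT : 1 ≤ T) :
    Summable (fun n => A n * (1 - 1 / T) ^ n) ∧
      ∑' n, A n * (1 - 1 / T) ^ n ≤ K * (E.factorial : ℝ) * T ^ (E + 1) := by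
  have hT0 : 0 < T := by linarith
  have hy0 : 0 ≤ 1 - 1 / T := by
    rw [sub_nonneg, div_le_one hT0]; exact hT
  have hy1 : 1 - 1 / T < 1 := by
    have : 0 < 1 / T := by positivity
    linarith
  have hs := (hasSum_choose_mul_geometric_of_norm_lt_one (𝕜 := ℝ) E (r := 1 - 1 / T) (by
    rw [Real.norm_eq_abs, abs_of_nonneg hy0]; exact hy1)).mul_left (K * (E.factorial : ℝ))
  have hle : ∀ n, A n * (1 - 1 / T) ^ n ≤
      K * (E.factorial : ℝ) * (((n + E).choose E : ℝ) * (1 - 1 / T) ^ n) := by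
    intro n
    have h1 : (n + 1) ^ E ≤ E.factorial * (n + E).choose E := by
      rw [← Nat.ascFactorial_eq_factorial_mul_choose]
      exact Nat.pow_succ_le_ascFactorial (n + 1) E
    have h2 : ((n : ℝ) + 1) ^ E ≤ (E.factorial : ℝ) * ((n + E).choose E : ℝ) := by exact_mod_cast h1
    calc A n * (1 - 1 / T) ^ n ≤ (K * ((E.factorial : ℝ) * ((n + E).choose E : ℝ))) * (1 - 1 / T) ^ n := by
          refine mul_le_mul_of_nonneg_right ((hup n).trans ?_) (pow_nonneg hy0 n)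
          exact mul_le_mul_of_nonneg_left h2 hK.le
      _ = _ := by ring
  have hsum : Summable (fun n => A n * (1 - 1 / T) ^ n) :=
    Summable.of_nonneg_of_le (fun n => mul_nonneg (A0 n) (pow_nonneg hy0 n)) hle hs.summable
  refine ⟨hsum, ?_⟩
  refine (hsum.tsum_le_tsum hle hs.summable).trans (le_of_eq ?_)
  rw [hs.tsum_eq]
  have : 1 - (1 - 1 / T) = 1 / T := by ring
  rw [this, one_div_pow, one_div_one_div]

/-- The lower bound of the generating function at `y = 1 - 1/(4 s)`. -/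
lemma low_sum {A : ℕ → ℝ} (A0 : ∀ n, 0 ≤ A n) {κ c : ℝ} (hκ : 0 < κ) (hc : 0 < c)
    (hlow : ∀ n : ℕ, 1 ≤ n → c * (n : ℝ) ^ κ ≤ A n) {s : ℕ} (hs : 1 ≤ s)
    (hsum : Summable (fun n => A n * (1 - 1 / (4 * (s : ℝ))) ^ n)) :
    c / 2 * (s : ℝ) ^ (1 + κ) ≤ ∑' n, A n * (1 - 1 / (4 * (s : ℝ))) ^ n := by
  have hs1 : (1 : ℝ) ≤ s := by exact_mod_cast hs
  have hs0 : (0 : ℝ) < s := by linarith
  set y : ℝ := 1 - 1 / (4 * (s : ℝ)) with hy
  have hy0 : 0 ≤ y := by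
    rw [hy, sub_nonneg, div_le_one (by positivity)]; linarith
  have h1 : ∀ n ∈ Finset.Ico s (2 * s), c / 2 * (s : ℝ) ^ κ ≤ A n * y ^ n := by
    intro n hn
    rw [mem_Ico] at hn
    have hn1 : 1 ≤ n := by omega
    have hns : (s : ℝ) ≤ n := by exact_mod_cast hn.1
    have hn2 : (n : ℝ) ≤ 2 * s := by exact_mod_cast hn.2.le
    have e1 : 1 / 2 ≤ y ^ n := by
      have h2 := one_add_mul_le_pow (a := -(1 / (4 * (s : ℝ)))) (by
        have : 1 / (4 * (s : ℝ)) ≤ 1 := by rw [div_le_one (by positivity)]; linarith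
        linarith) n
      have h3 : (n : ℝ) * (1 / (4 * (s : ℝ))) ≤ 1 / 2 := by
        rw [mul_one_div, div_le_iff₀ (by positivity)]; linarith
      have h4 : 1 + -(1 / (4 * (s : ℝ))) = y := by rw [hy]; ring
      rw [h4] at h2
      linarith
    have e2 : c * (s : ℝ) ^ κ ≤ A n := by
      refine le_trans ?_ (hlow n hn1)
      exact mul_le_mul_of_nonneg_left (Real.rpow_le_rpow hs0.le hns hκ.le) hc.le
    calc c / 2 * (s : ℝ) ^ κ = (c * (s : ℝ) ^ κ) * (1 / 2) := by ring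
      _ ≤ A n * y ^ n := mul_le_mul e2 e1 (by norm_num) (A0 n)
  have h2 : ∑ n ∈ Finset.Ico s (2 * s), A n * y ^ n ≤ ∑' n, A n * y ^ n :=
    hsum.sum_le_tsum _ fun n _ => mul_nonneg (A0 n) (pow_nonneg hy0 n)
  refine le_trans ?_ h2
  refine le_trans (le_of_eq ?_) (Finset.card_nsmul_le_sum _ _ _ h1)
  rw [Nat.card_Ico, nsmul_eq_mul]
  have e3 : ((2 * s - s : ℕ) : ℝ) = s := by
    have : 2 * s - s = s := by omega
    rw [this]
  rw [e3, Real.rpow_add hs0, Real.rpow_one]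
  ring

end Pool.Agent.RAT
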