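import Pool.Agent.RAT.G.Defs

/-!
Pairs of half-plane walks of lengths `k`, `l` from `o` which meet only at `o`.
-/

namespace Pool.Agent.RAT

open Pool.Agent.Hhelper14.SAW

/-- Pairs of half-plane walks of lengths `k`, `l` (latest vertex first) with only the start in common. -/
def PD (k l : ℕ) : Set (List (ℤ × ℤ) × List (ℤ × ℤ)) :=
  {q | q.1 ∈ W true k ∧ q.2 ∈ W true l ∧ ∀ z ∈ q.1, z ≠ o → z ∉ q.2}

lemma PD_finite (k l : ℕ) : (PD k l).Finite :=
  ((W_finite true k).prod (W_finite true l)).subset fun _ h => ⟨h.1, h.2.1⟩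

/-- The number of these pairs. -/
noncomputable def dn (k l : ℕ) : ℕ := (PD k l).ncard

end Pool.Agent.RAT
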