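import Pool.Agent.RAT.D.Cut1
import Pool.Agent.Hhelper14.SAW.Low

/-!
(D1), (D2), (D3) and (H1), normalised.
-/

namespace Pool.Agent.RAT

open Pool.Agent.Hhelper14.SAW

lemma mu_ge_one : 1 ≤ mu := le_trans (by norm_num) mu_bounds.1

lemma mu_pos' : 0 < mu := lt_of_lt_of_le one_pos mu_ge_one

/-- (D1), normalised. -/
theorem norm_D1 (m : ℕ) : (an m : ℝ) / mu ^ m ≤
    ∑ i ∈ Finset.range 3, ∑ p ∈ Finset.HasAntidiagonal.antidiagonal (m - i), (dn p.1 p.2 : ℝ) / mu ^ (p.1 + p.2) := by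
  have h := an_le_sum m
  have hmu := mu_pos'
  rw [div_le_iff₀ (by positivity)]
  have h' : (an m : ℝ) ≤ ∑ i ∈ Finset.range 3, ∑ p ∈ Finset.HasAntidiagonal.antidiagonal (m - i), (dn p.1 p.2 : ℝ) := by
    exact_mod_cast h
  refine h'.trans ?_
  rw [Finset.sum_mul]
  refine Finset.sum_le_sum fun i _ => ?_
  rw [Finset.sum_mul]
  refine Finset.sum_le_sum fun p hp => ?_
  rw [Finset.HasAntidiagonal.mem_antidiagonal] at hp
  rw [hp, div_mul_eq_mul_div, le_div_iff₀ (by positivity)]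
  exact mul_le_mul_of_nonneg_left (pow_le_pow_right₀ mu_ge_one (by omega)) (Nat.cast_nonneg _)

/-- (D2), normalised. -/
theorem norm_D2 (k l i j : ℕ) : (dn (k + i) (l + j) : ℝ) / mu ^ (k + i + (l + j)) ≤
    (dn k l : ℝ) / mu ^ (k + l) * ((an i : ℝ) / mu ^ i) * ((an j : ℝ) / mu ^ j) := by
  have hmu := mu_pos'
  have h : (dn (k + i) (l + j) : ℝ) ≤ dn k l * an i * an j := by exact_mod_cast dn_add_le k l i j
  have e : (dn k l : ℝ) / mu ^ (k + l) * ((an i : ℝ) / mu ^ i) * ((an j : ℝ) / mu ^ j) =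
      dn k l * an i * an j / mu ^ (k + i + (l + j)) := by
    field_simp
    ring
  rw [e]
  exact div_le_div_of_nonneg_right h (by positivity)

/-- (D3), normalised. -/
theorem norm_D3 (k l : ℕ) : (dn k l : ℝ) / mu ^ (k + l) ≤ (cn true k : ℝ) / mu ^ k * ((cn true l : ℝ) / mu ^ l) := by
  have hmu := mu_pos'
  have h : (dn k l : ℝ) ≤ cn true k * cn true l := by exact_mod_cast dn_le k l
  have e : (cn true k : ℝ) / mu ^ k * ((cn true l : ℝ) / mu ^ l) = cn true k * cn true l / mu ^ (k + l) := by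
    field_simp
    ring
  rw [e]
  exact div_le_div_of_nonneg_right h (by positivity)

/-- (H1), normalised. -/
theorem norm_H1 (b : Bool) (n m : ℕ) : (cn b (n + m) : ℝ) / mu ^ (n + m) ≤
    (cn b n : ℝ) / mu ^ n * ((an m : ℝ) / mu ^ m) := by
  have hmu := mu_pos'
  have h : (cn b (n + m) : ℝ) ≤ cn b n * an m := by exact_mod_cast cn_add_le b n m
  have e : (cn b n : ℝ) / mu ^ n * ((an m : ℝ) / mu ^ m) = cn b n * an m / mu ^ (n + m) := by
    field_simp
    ring
  rw [e]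
  exact div_le_div_of_nonneg_right h (by positivity)

end Pool.Agent.RAT
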