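import Pool.Agent.RAT.D.Low
import Pool.Agent.RAT.D.Norm
import Pool.Agent.RAT.B.Ratio
import Pool.Agent.HDN.Growth

/-!
Project RAT: the lower bound for the pairs of disjoint half-plane walks of equal length, from the combinatorial
inputs on cut lines (`q` = half-plane walks without cut line, `be` = bridges with `n` vertices, `io` = irreducible
bridges with `n` vertices).
-/

namespace Pool.Agent.RAT

open Pool.Agent.Hhelper14.SAW Finset

lemma norm_nonneg' (f : ℕ → ℕ) (n : ℕ) : (0 : ℝ) ≤ (f n : ℝ) / mu ^ n := by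
  have := mu_pos'
  positivity

lemma cv_norm (f g : ℕ → ℕ) (n : ℕ) :
    cv (fun n => (f n : ℝ) / mu ^ n) (fun n => (g n : ℝ) / mu ^ n) n =
      ((∑ p ∈ antidiagonal n, f p.1 * g p.2 : ℕ) : ℝ) / mu ^ n := by
  have hmu := mu_pos'
  unfold cv
  push_cast
  rw [sum_div]
  refine sum_congr rfl fun p hp => ?_
  rw [HasAntidiagonal.mem_antidiagonal] at hp
  rw [← hp, pow_add]
  field_simp

theorem low_inst {q be io : ℕ → ℕ} {M : ℝ} (hM : 1 ≤ M)
    (dec : ∀ n, cn true n ≤ ∑ p ∈ antidiagonal n, q p.1 * be p.2)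
    (glue : ∀ m, ((∑ p ∈ antidiagonal m, q p.1 * cn true p.2 : ℕ) : ℝ) ≤ M * an (m + 1))
    (ren : ∀ n, be n ≤ (if n = 0 then 1 else 0) + ∑ p ∈ antidiagonal n, io p.1 * be p.2)
    (io_sum : ∀ N, ∑ i ∈ range N, (io i : ℝ) / mu ^ i ≤ 1) (io_two : 1 ≤ io 2) :
    ∃ C : ℝ, 0 < C ∧ ∀ n : ℕ, 1 ≤ n → (n : ℝ) ^ (-C) / C ≤ (dn n n : ℝ) / mu ^ (2 * n) := by
  have hmu := mu_pos'
  have hmu1 := mu_ge_one
  obtain ⟨c, hc, hlow⟩ := Pool.Agent.HDN.low
  obtain ⟨K, hK, -, hup⟩ := an_bounds
  set E : ℕ := ⌈K⌉₊ with hE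
  have hKE : K ≤ E := Nat.le_ceil K
  have H : LowHyp (1 / 262) c ((mu ^ 2)⁻¹) (M * mu) (max K 1) E (fun n => (an n : ℝ) / mu ^ n)
      (fun n => (cn true n : ℝ) / mu ^ n) (fun n => (q n : ℝ) / mu ^ n) (fun n => (be n : ℝ) / mu ^ n)
      (fun n => (io n : ℝ) / mu ^ n) (fun k l => (dn k l : ℝ) / mu ^ (k + l)) := by
    refine ⟨by norm_num, hc, by positivity, by nlinarith, by positivity, norm_nonneg' _, norm_nonneg' _,
      norm_nonneg' _, norm_nonneg' _, norm_nonneg' _, fun k l => by positivity, ?_, ?_, ?_, ?_, norm_D2, norm_D3,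
      ?_, ?_, ?_, io_sum, ?_⟩
    · intro n hn
      rw [le_div_iff₀ (by positivity)]
      exact hlow n hn
    · intro n
      rw [div_le_iff₀ (by positivity)]
      have hn1 : (1 : ℝ) ≤ (n : ℝ) + 1 := by
        have : (0 : ℝ) ≤ n := Nat.cast_nonneg n
        linarith
      have hp : (1 : ℝ) ≤ ((n : ℝ) + 1) ^ E := one_le_pow₀ hn1
      rcases Nat.eq_zero_or_pos n with rfl | hn
      · rw [an_zero]
        have : (1 : ℝ) ≤ max K 1 := le_max_right _ _
        simp
      · refine (hup n hn).trans ?_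
        refine mul_le_mul_of_nonneg_right ?_ (by positivity)
        have e1 : (n : ℝ) ^ K ≤ ((n : ℝ) + 1) ^ E := by
          rw [← Real.rpow_natCast]
          refine (Real.rpow_le_rpow (Nat.cast_nonneg n) (by linarith : (n : ℝ) ≤ (n : ℝ) + 1) hK.le).trans ?_
          exact Real.rpow_le_rpow_of_exponent_le hn1 hKE
        exact mul_le_mul (le_max_left _ _) e1 (by positivity) (by positivity)
    · intro n
      have h := norm_H1 true 0 n
      rw [Nat.zero_add] at h
      refine h.trans ?_
      have h0 : (cn true 0 : ℝ) ≤ 1 := by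
        have h1 : cn true 0 ≤ an 0 := by
          rw [← cn_false]
          unfold cn
          refine Finset.card_le_card fun P hP => ?_
          rw [mem_WF] at hP ⊢
          exact ⟨hP.1, fun z _ h => absurd h (by decide)⟩
        rw [an_zero] at h1
        exact_mod_cast h1
      rw [pow_zero, div_one]
      have : (0 : ℝ) ≤ (an n : ℝ) / mu ^ n := by positivity
      nlinarith
    · intro m
      refine (norm_D1 m).trans ?_
      have : 0 ≤ ∑ i ∈ range 3, ∑ p ∈ antidiagonal (m - i), (dn p.1 p.2 : ℝ) / mu ^ (p.1 + p.2) :=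
        sum_nonneg fun i _ => sum_nonneg fun p _ => by positivity
      exact le_mul_of_one_le_left this (by nlinarith)
    · intro n
      rw [cv_norm q be]
      refine div_le_div_of_nonneg_right ?_ (by positivity)
      exact_mod_cast dec n
    · intro m
      rw [cv_norm q (cn true)]
      have e : M * mu * ((an (m + 1) : ℝ) / mu ^ (m + 1)) = M * an (m + 1) / mu ^ m := by
        rw [pow_succ]; field_simp
      rw [e]
      exact div_le_div_of_nonneg_right (glue m) (by positivity)
    · intro n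
      rw [cv_norm io be, div_le_iff₀ (by positivity), add_mul, div_mul_cancel₀ _ (by positivity)]
      have h : (be n : ℝ) ≤ (if n = 0 then 1 else 0) + ((∑ p ∈ antidiagonal n, io p.1 * be p.2 : ℕ) : ℝ) := by
        have := ren n
        split_ifs at this ⊢ with h0
        · exact_mod_cast this
        · exact_mod_cast this
      refine h.trans ?_
      have hp : 1 ≤ mu ^ n := one_le_pow₀ hmu1
      have h2 : (if n = 0 then (1 : ℝ) else 0) ≤ (if n = 0 then (1 : ℝ) else 0) * mu ^ n := by
        split_ifs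
        · linarith
        · linarith
      linarith
    · have h : (1 : ℝ) ≤ io 2 := by exact_mod_cast io_two
      rw [inv_eq_one_div]
      exact div_le_div_of_nonneg_right h (by positivity)
  obtain ⟨C, hC, h⟩ := H.main
  refine ⟨C, hC, fun n hn => ?_⟩
  have := h n hn
  rwa [← two_mul] at this

end Pool.Agent.RAT
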