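import Pool.Agent.RAT.D.Ana

/-!
Project RAT: the lower bound for the number of disjoint pairs of half-plane walks of equal length, abstract form.
-/

namespace Pool.Agent.RAT

open Finset

/-- The hypotheses, for normalised sequences: `A` walks, `h` half-plane walks, `D` disjoint pairs, `q` half-plane
walks without cut line, `be` bridges (with the empty one), `io` irreducible bridges. -/
structure LowHyp (κ c δ M K : ℝ) (E : ℕ) (A h q be io : ℕ → ℝ) (D : ℕ → ℕ → ℝ) : Prop where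
  κ_pos : 0 < κ
  c_pos : 0 < c
  δ_pos : 0 < δ
  M_one : 1 ≤ M
  K_pos : 0 < K
  A0 : ∀ n, 0 ≤ A n
  h0 : ∀ n, 0 ≤ h n
  q0 : ∀ n, 0 ≤ q n
  be0 : ∀ n, 0 ≤ be n
  io0 : ∀ n, 0 ≤ io n
  D0 : ∀ k l, 0 ≤ D k l
  low : ∀ n : ℕ, 1 ≤ n → c * (n : ℝ) ^ κ ≤ A n
  up : ∀ n : ℕ, A n ≤ K * ((n : ℝ) + 1) ^ E
  hA : ∀ n, h n ≤ A n
  cut : ∀ m : ℕ, A m ≤ M * ∑ i ∈ range 3, ∑ p ∈ antidiagonal (m - i), D p.1 p.2
  ext : ∀ k l i j : ℕ, D (k + i) (l + j) ≤ D k l * A i * A j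
  prod : ∀ k l : ℕ, D k l ≤ h k * h l
  dec : ∀ n : ℕ, h n ≤ cv q be n
  glue : ∀ m : ℕ, cv q h m ≤ M * A (m + 1)
  ren : ∀ n : ℕ, be n ≤ (if n = 0 then 1 else 0) + cv io be n
  io_sum : ∀ N : ℕ, ∑ i ∈ range N, io i ≤ 1
  io_two : δ ≤ io 2

namespace LowHyp

variable {κ c δ M K : ℝ} {E : ℕ} {A h q be io : ℕ → ℝ} {D : ℕ → ℕ → ℝ}

/-- The generating function of the half-plane walks. -/
lemma H_le (H : LowHyp κ c δ M K E A h q be io D) {s : ℕ} (hs : 1 ≤ s) {N : ℕ} (hN : 3 ≤ N) {X : ℝ}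
    (hX : ∀ N, gs A (1 - 1 / (4 * (s : ℝ))) N ≤ X) (hXlow : c / 2 * (s : ℝ) ^ (1 + κ) ≤ X) :
    gs h (1 - 1 / (4 * (s : ℝ))) N ≤ Real.sqrt (16 * M / (c * δ)) * (s : ℝ) ^ (-(κ / 2)) * X := by
  have hc := H.c_pos
  have hδ := H.δ_pos
  have hM := H.M_one
  have hs1 : (1 : ℝ) ≤ s := by exact_mod_cast hs
  have hs0 : (0 : ℝ) < s := by linarith
  set y : ℝ := 1 - 1 / (4 * (s : ℝ)) with hy
  have hq : 1 / (4 * (s : ℝ)) ≤ 1 / 4 := one_div_le_one_div_of_le (by norm_num) (by linarith)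
  have hq0 : 0 < 1 / (4 * (s : ℝ)) := by positivity
  have hy34 : 3 / 4 ≤ y := by rw [hy]; linarith
  have hy0 : 0 ≤ y := by linarith
  have hy1 : y < 1 := by rw [hy]; linarith
  have hX0 : 0 < X := lt_of_lt_of_le (by positivity) hXlow
  have b1 : gs be y N ≤ 4 * s / δ := by
    refine (ren_le H.be0 H.io0 H.ren H.io_sum hδ H.io_two hy0 hy1 hN).trans (le_of_eq ?_)
    have : 1 - y = 1 / (4 * (s : ℝ)) := by rw [hy]; ring
    rw [this]
    field_simp
  have b0 := gs_nonneg H.be0 hy0 N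
  have h0 := gs_nonneg H.h0 hy0 N
  have q0 := gs_nonneg H.q0 hy0 N
  have h1 : gs h y N ≤ gs q y N * gs be y N := (gs_mono H.dec hy0 N).trans (gs_cv_le H.q0 H.be0 hy0 N)
  have h2 : gs q y N * gs h y N ≤ M * (2 * X) := by
    refine (le_gs_cv H.q0 H.h0 hy0 N).trans ?_
    refine (gs_mono H.glue hy0 _).trans ?_
    have e1 : gs (fun m => M * A (m + 1)) y (2 * N) * y ≤ M * X := by
      have e2 : gs (fun m => M * A (m + 1)) y (2 * N) * y =
          M * ∑ m ∈ range (2 * N), A (m + 1) * y ^ (m + 1) := by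
        unfold gs
        rw [sum_mul, mul_sum]
        exact sum_congr rfl fun m _ => by ring
      rw [e2]
      refine mul_le_mul_of_nonneg_left ?_ (by linarith)
      refine le_trans ?_ (hX (2 * N + 1))
      unfold gs
      rw [sum_range_succ']
      have : 0 ≤ A 0 * y ^ 0 := mul_nonneg (H.A0 0) (pow_nonneg hy0 0)
      linarith
    have e3 : 0 ≤ gs (fun m => M * A (m + 1)) y (2 * N) :=
      gs_nonneg (fun m => mul_nonneg (by linarith) (H.A0 _)) hy0 _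
    have e4 : 0 ≤ M * X := mul_nonneg (by linarith) hX0.le
    nlinarith
  have h3 : gs h y N ^ 2 ≤ 8 * M / δ * s * X := by
    calc gs h y N ^ 2 = gs h y N * gs h y N := sq _
      _ ≤ (gs q y N * gs be y N) * gs h y N := mul_le_mul_of_nonneg_right h1 h0
      _ = (gs q y N * gs h y N) * gs be y N := by ring
      _ ≤ (M * (2 * X)) * (4 * s / δ) := mul_le_mul h2 b1 b0 (by positivity)
      _ = _ := by ring
  have h4 : (s : ℝ) * ((c / 2) * (s : ℝ) ^ κ) ≤ X := by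
    refine le_trans (le_of_eq ?_) hXlow
    rw [Real.rpow_add hs0, Real.rpow_one]; ring
  have h5 : 8 * M / δ * s * X ≤ 16 * M / (c * δ) * ((s : ℝ) ^ (-(κ / 2)) * X) ^ 2 := by
    have e1 : ((s : ℝ) ^ (-(κ / 2)) * X) ^ 2 = (s : ℝ) ^ (-κ) * X ^ 2 := by
      rw [mul_pow, ← Real.rpow_natCast, ← Real.rpow_mul hs0.le]
      congr 2; push_cast; ring
    have e2 : (s : ℝ) ^ κ * (s : ℝ) ^ (-κ) = 1 := by
      rw [← Real.rpow_add hs0, add_neg_cancel, Real.rpow_zero]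
    have e3 : 0 < (s : ℝ) ^ (-κ) := Real.rpow_pos_of_pos hs0 _
    have e4 : (s : ℝ) * (c / 2) ≤ X * (s : ℝ) ^ (-κ) := by
      calc (s : ℝ) * (c / 2) = (s : ℝ) * ((c / 2) * (s : ℝ) ^ κ) * (s : ℝ) ^ (-κ) := by
            rw [show (s : ℝ) * ((c / 2) * (s : ℝ) ^ κ) * (s : ℝ) ^ (-κ) =
              (s : ℝ) * (c / 2) * ((s : ℝ) ^ κ * (s : ℝ) ^ (-κ)) by ring, e2, mul_one]
        _ ≤ X * (s : ℝ) ^ (-κ) := mul_le_mul_of_nonneg_right h4 e3.le
    rw [e1]
    calc 8 * M / δ * s * X = 16 * M / (c * δ) * ((s : ℝ) * (c / 2)) * X := by field_simp; ring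
      _ ≤ 16 * M / (c * δ) * (X * (s : ℝ) ^ (-κ)) * X := by gcongr
      _ = _ := by ring
  have h6 : 0 ≤ (s : ℝ) ^ (-(κ / 2)) * X := by positivity
  have h7 : gs h y N ≤ Real.sqrt (16 * M / (c * δ) * ((s : ℝ) ^ (-(κ / 2)) * X) ^ 2) :=
    Real.le_sqrt_of_sq_le (h3.trans h5)
  rw [Real.sqrt_mul (by positivity), Real.sqrt_sq h6] at h7
  rw [mul_assoc]
  exact h7

/-- The double sum of the pairs. -/
lemma D_le (H : LowHyp κ c δ M K E A h q be io D) {y : ℝ} (hy0 : 0 ≤ y) (hy1 : y ≤ 1) {n N : ℕ} (hn : 1 ≤ n)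
    (hnN : n ≤ N) {X : ℝ} (hX : ∀ N, gs A y N ≤ X) :
    ∑ k ∈ range N, ∑ l ∈ range N, D k l * y ^ (k + l) ≤
      2 * (K * 2 ^ E * (n : ℝ) ^ (E + 1)) * gs h y N + D n n * X ^ 2 := by
  have hK := H.K_pos
  have hX0 : 0 ≤ X := by
    have := hX 0
    unfold gs at this
    simpa using this
  have hyp : ∀ k, y ^ k ≤ 1 := fun k => pow_le_one₀ hy0 hy1
  have hypn : ∀ k, 0 ≤ y ^ k := fun k => pow_nonneg hy0 k
  have g0 := gs_nonneg H.h0 hy0 N
  -- small index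
  have hsmall : ∑ k ∈ range n, h k ≤ K * 2 ^ E * (n : ℝ) ^ (E + 1) := by
    have e1 : ∀ k ∈ range n, h k ≤ K * 2 ^ E * (n : ℝ) ^ E := by
      intro k hk
      rw [mem_range] at hk
      refine (H.hA k).trans ((H.up k).trans ?_)
      have e2 : (k : ℝ) + 1 ≤ 2 * n := by
        have : (k : ℝ) + 1 ≤ n := by exact_mod_cast hk
        have : (0 : ℝ) ≤ n := by positivity
        linarith
      calc K * ((k : ℝ) + 1) ^ E ≤ K * (2 * n) ^ E := by gcongr
        _ = K * 2 ^ E * (n : ℝ) ^ E := by rw [mul_pow]; ring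
    refine (sum_le_card_nsmul _ _ _ e1).trans (le_of_eq ?_)
    rw [card_range, nsmul_eq_mul]
    ring
  have hD1 : ∀ k l, D k l * y ^ (k + l) ≤ h k * (h l * y ^ l) := by
    intro k l
    rw [pow_add]
    calc D k l * (y ^ k * y ^ l) ≤ (h k * h l) * (1 * y ^ l) := by
          refine mul_le_mul (H.prod k l) (mul_le_mul_of_nonneg_right (hyp k) (hypn l))
            (mul_nonneg (hypn k) (hypn l)) (mul_nonneg (H.h0 k) (H.h0 l))
      _ = _ := by ring
  have hD2 : ∀ k l, D k l * y ^ (k + l) ≤ h l * (h k * y ^ k) := by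
    intro k l
    rw [pow_add]
    calc D k l * (y ^ k * y ^ l) ≤ (h k * h l) * (y ^ k * 1) := by
          refine mul_le_mul (H.prod k l) (mul_le_mul_of_nonneg_left (hyp l) (hypn k))
            (mul_nonneg (hypn k) (hypn l)) (mul_nonneg (H.h0 k) (H.h0 l))
      _ = _ := by ring
  have hDn : ∀ k l, 0 ≤ D k l * y ^ (k + l) := fun k l => mul_nonneg (H.D0 k l) (hypn _)
  obtain ⟨r, rfl⟩ := Nat.exists_eq_add_of_le hnN
  have s1 : ∑ k ∈ range (n + r), ∑ l ∈ range (n + r), D k l * y ^ (k + l) =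
      ∑ k ∈ range n, ∑ l ∈ range (n + r), D k l * y ^ (k + l) +
      (∑ k ∈ range r, ∑ l ∈ range n, D (n + k) l * y ^ (n + k + l) +
       ∑ k ∈ range r, ∑ l ∈ range r, D (n + k) (n + l) * y ^ (n + k + (n + l))) := by
    rw [sum_range_add (fun k => ∑ l ∈ range (n + r), D k l * y ^ (k + l)), ← sum_add_distrib]
    congr 1
    refine sum_congr rfl fun k _ => ?_
    rw [sum_range_add (fun l => D (n + k) l * y ^ (n + k + l))]
  rw [s1]
  have t1 : ∑ k ∈ range n, ∑ l ∈ range (n + r), D k l * y ^ (k + l) ≤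
      K * 2 ^ E * (n : ℝ) ^ (E + 1) * gs h y (n + r) := by
    calc ∑ k ∈ range n, ∑ l ∈ range (n + r), D k l * y ^ (k + l)
        ≤ ∑ k ∈ range n, ∑ l ∈ range (n + r), h k * (h l * y ^ l) :=
          sum_le_sum fun k _ => sum_le_sum fun l _ => hD1 k l
      _ = (∑ k ∈ range n, h k) * gs h y (n + r) := by
          unfold gs; rw [sum_mul_sum]
      _ ≤ _ := mul_le_mul_of_nonneg_right hsmall g0
  have t2 : ∑ k ∈ range r, ∑ l ∈ range n, D (n + k) l * y ^ (n + k + l) ≤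
      K * 2 ^ E * (n : ℝ) ^ (E + 1) * gs h y (n + r) := by
    have e1 : ∑ k ∈ range r, ∑ l ∈ range n, D (n + k) l * y ^ (n + k + l) ≤
        ∑ k ∈ range (n + r), ∑ l ∈ range n, D k l * y ^ (k + l) := by
      rw [sum_range_add (fun k => ∑ l ∈ range n, D k l * y ^ (k + l))]
      have : 0 ≤ ∑ k ∈ range n, ∑ l ∈ range n, D k l * y ^ (k + l) :=
        sum_nonneg fun k _ => sum_nonneg fun l _ => hDn k l
      linarith
    refine e1.trans ?_
    calc ∑ k ∈ range (n + r), ∑ l ∈ range n, D k l * y ^ (k + l)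
        ≤ ∑ k ∈ range (n + r), ∑ l ∈ range n, h l * (h k * y ^ k) :=
          sum_le_sum fun k _ => sum_le_sum fun l _ => hD2 k l
      _ = (∑ k ∈ range n, h k) * gs h y (n + r) := by
          unfold gs; rw [sum_comm, sum_mul_sum]
      _ ≤ _ := mul_le_mul_of_nonneg_right hsmall g0
  have t3 : ∑ k ∈ range r, ∑ l ∈ range r, D (n + k) (n + l) * y ^ (n + k + (n + l)) ≤ D n n * X ^ 2 := by
    have e1 : ∀ k l, D (n + k) (n + l) * y ^ (n + k + (n + l)) ≤ D n n * ((A k * y ^ k) * (A l * y ^ l)) := by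
      intro k l
      have e2 : y ^ (n + k + (n + l)) = (y ^ n * y ^ n) * (y ^ k * y ^ l) := by
        rw [← pow_add, ← pow_add, ← pow_add]; congr 1; ring
      rw [e2]
      calc D (n + k) (n + l) * ((y ^ n * y ^ n) * (y ^ k * y ^ l))
          ≤ (D n n * A k * A l) * (1 * (y ^ k * y ^ l)) := by
            refine mul_le_mul (H.ext n n k l) (mul_le_mul_of_nonneg_right ?_ (mul_nonneg (hypn k) (hypn l)))
              (mul_nonneg (mul_nonneg (hypn n) (hypn n)) (mul_nonneg (hypn k) (hypn l)))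
              (mul_nonneg (mul_nonneg (H.D0 n n) (H.A0 k)) (H.A0 l))
            exact mul_le_one₀ (hyp n) (hypn n) (hyp n)
        _ = _ := by ring
    calc ∑ k ∈ range r, ∑ l ∈ range r, D (n + k) (n + l) * y ^ (n + k + (n + l))
        ≤ ∑ k ∈ range r, ∑ l ∈ range r, D n n * ((A k * y ^ k) * (A l * y ^ l)) :=
          sum_le_sum fun k _ => sum_le_sum fun l _ => e1 k l
      _ = D n n * (gs A y r * gs A y r) := by
          unfold gs
          rw [sum_mul_sum, mul_sum]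
          exact sum_congr rfl fun k _ => (mul_sum _ _ _).symm
      _ ≤ D n n * X ^ 2 := by
          refine mul_le_mul_of_nonneg_left ?_ (H.D0 n n)
          rw [sq]
          exact mul_le_mul (hX r) (hX r) (gs_nonneg H.A0 hy0 r) hX0
  linarith

/-- The sums over the cut positions. -/
lemma A_le (H : LowHyp κ c δ M K E A h q be io D) {y : ℝ} (hy0 : 0 ≤ y) (hy1 : y ≤ 1) (N : ℕ) :
    gs A y N ≤ 7 * M * ∑ k ∈ range N, ∑ l ∈ range N, D k l * y ^ (k + l) := by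
  have hM := H.M_one
  set S : ℕ → ℝ := fun m => ∑ p ∈ antidiagonal m, D p.1 p.2 with hS
  have S0 : ∀ m, 0 ≤ S m := fun m => sum_nonneg fun p _ => H.D0 _ _
  have hyn : ∀ m, 0 ≤ y ^ m := fun m => pow_nonneg hy0 m
  have e1 : ∀ i m, S (m - i) * y ^ m ≤ S (m - i) * y ^ (m - i) := fun i m =>
    mul_le_mul_of_nonneg_left (pow_le_pow_of_le_one hy0 hy1 (Nat.sub_le m i)) (S0 _)
  set g : ℕ → ℝ := fun m => S m * y ^ m with hg
  have g0 : ∀ m, 0 ≤ g m := fun m => mul_nonneg (S0 m) (hyn m)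
  have f0 : ∑ m ∈ range N, g (m - 0) = ∑ m ∈ range N, g m := sum_congr rfl fun m _ => by rw [Nat.sub_zero]
  have f1 : ∑ m ∈ range N, g (m - 1) ≤ 2 * ∑ m ∈ range N, g m := shift1 g0 N
  have f2 : ∑ m ∈ range N, g (m - 2) ≤ 4 * ∑ m ∈ range N, g m := by
    have := shift1 (g := fun m => g (m - 1)) (fun m => g0 _) N
    have e : ∀ m, g (m - 1 - 1) = g (m - 2) := fun m => by rw [Nat.sub_sub]
    simp only [e] at this
    linarith
  have g1 : gs A y N ≤ M * ∑ i ∈ range 3, ∑ m ∈ range N, g (m - i) := by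
    unfold gs
    rw [sum_comm, mul_sum]
    refine sum_le_sum fun m _ => ?_
    calc A m * y ^ m ≤ (M * ∑ i ∈ range 3, S (m - i)) * y ^ m := mul_le_mul_of_nonneg_right (H.cut m) (hyn m)
      _ = M * ∑ i ∈ range 3, S (m - i) * y ^ m := by rw [mul_assoc, sum_mul]
      _ ≤ M * ∑ i ∈ range 3, g (m - i) :=
          mul_le_mul_of_nonneg_left (sum_le_sum fun i _ => e1 i m) (by linarith)
  have g2 : ∑ i ∈ range 3, ∑ m ∈ range N, g (m - i) ≤ 7 * ∑ m ∈ range N, g m := by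
    rw [sum_range_succ, sum_range_succ, sum_range_one]
    linarith
  have g3 : ∑ m ∈ range N, g m ≤ ∑ k ∈ range N, ∑ l ∈ range N, D k l * y ^ (k + l) := by
    have e : ∀ m, g m = ∑ p ∈ antidiagonal m, D p.1 p.2 * y ^ (p.1 + p.2) := by
      intro m
      simp only [hg, hS]
      rw [sum_mul]
      refine sum_congr rfl fun p hp => ?_
      rw [HasAntidiagonal.mem_antidiagonal] at hp
      rw [hp]
    simp only [e]
    exact sum_anti_le (F := fun p => D p.1 p.2 * y ^ (p.1 + p.2))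
      (fun p => mul_nonneg (H.D0 _ _) (hyn _)) N
  calc gs A y N ≤ M * ∑ i ∈ range 3, ∑ m ∈ range N, g (m - i) := g1
    _ ≤ M * (7 * ∑ m ∈ range N, g m) := mul_le_mul_of_nonneg_left g2 (by linarith)
    _ ≤ M * (7 * ∑ k ∈ range N, ∑ l ∈ range N, D k l * y ^ (k + l)) := by gcongr
    _ = _ := by ring

/-- **Lower bound** for the pairs of equal length. -/
theorem main (H : LowHyp κ c δ M K E A h q be io D) :
    ∃ C : ℝ, 0 < C ∧ ∀ n : ℕ, 1 ≤ n → (n : ℝ) ^ (-C) / C ≤ D n n := by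
  have hc := H.c_pos
  have hδ := H.δ_pos
  have hM := H.M_one
  have hK := H.K_pos
  have hκ := H.κ_pos
  have hM0 : 0 < M := by linarith
  set G : ℝ := Real.sqrt (16 * M / (c * δ)) with hG
  have hG0 : 0 ≤ G := Real.sqrt_nonneg _
  set R : ℝ := max 1 (56 * M * (K * 2 ^ E) * G) with hR
  have hR1 : 1 ≤ R := le_max_left _ _
  have hR0 : 0 < R := by linarith
  have hR2 : 56 * M * (K * 2 ^ E) * G ≤ R := le_max_right _ _
  set L : ℝ := 28 * M * (K * (E.factorial : ℝ)) * (8 * R ^ (2 / κ)) ^ (E + 1) with hL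
  have hRp : 0 < R ^ (2 / κ) := Real.rpow_pos_of_pos hR0 _
  have hfac : (0 : ℝ) < (E.factorial : ℝ) := by exact_mod_cast E.factorial_pos
  have hL0 : 0 < L := by positivity
  set F : ℝ := ((E : ℝ) + 1) * (2 / κ) * ((E : ℝ) + 1) with hF
  have hF0 : 0 < F := by positivity
  refine ⟨max L F, lt_max_of_lt_left hL0, fun n hn => ?_⟩
  have hn1 : (1 : ℝ) ≤ n := by exact_mod_cast hn
  have hn0 : (0 : ℝ) < n := by linarith
  have hnE : (1 : ℝ) ≤ (n : ℝ) ^ (E + 1) := one_le_pow₀ hn1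
  -- the choice of `s`
  set z : ℝ := (R * (n : ℝ) ^ (E + 1)) ^ (2 / κ) with hz
  have hRn : 1 ≤ R * (n : ℝ) ^ (E + 1) := by nlinarith
  have hz1 : 1 ≤ z := Real.one_le_rpow hRn (by positivity)
  set s : ℕ := ⌈z⌉₊ with hs
  have hsz : z ≤ s := Nat.le_ceil z
  have hs2 : (s : ℝ) ≤ 2 * z := by
    have := Nat.ceil_lt_add_one (a := z) (by linarith)
    linarith
  have hs1 : 1 ≤ s := by
    have : (1 : ℝ) ≤ s := by linarith
    exact_mod_cast this
  have hsR : (1 : ℝ) ≤ s := by exact_mod_cast hs1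
  have hs0 : (0 : ℝ) < s := by linarith
  have hspow : R * (n : ℝ) ^ (E + 1) ≤ (s : ℝ) ^ (κ / 2) := by
    have e1 : z ^ (κ / 2) ≤ (s : ℝ) ^ (κ / 2) := Real.rpow_le_rpow (by linarith) hsz (by positivity)
    have e2 : z ^ (κ / 2) = R * (n : ℝ) ^ (E + 1) := by
      rw [hz, ← Real.rpow_mul (by linarith)]
      have : 2 / κ * (κ / 2) = 1 := by field_simp
      rw [this, Real.rpow_one]
    rw [e2] at e1
    exact e1
  -- the generating function
  have hT : (1 : ℝ) ≤ 4 * s := by linarith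
  obtain ⟨hsum, hXup⟩ := up_sum H.A0 hK H.up hT
  have hXlow := low_sum H.A0 hκ hc H.low hs1 hsum
  set y : ℝ := 1 - 1 / (4 * (s : ℝ)) with hy
  set X : ℝ := ∑' n, A n * y ^ n with hXd
  have hy0 : 0 ≤ y := by
    rw [hy, sub_nonneg, div_le_one (by positivity)]; linarith
  have hy1 : y ≤ 1 := by
    have : 0 < 1 / (4 * (s : ℝ)) := by positivity
    rw [hy]; linarith
  have hX0 : 0 < X := lt_of_lt_of_le (by positivity) hXlow
  have hX : ∀ N, gs A y N ≤ X := fun N =>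
    hsum.sum_le_tsum _ fun i _ => mul_nonneg (H.A0 i) (pow_nonneg hy0 i)
  obtain ⟨N, hN1, hN2, hN3⟩ : ∃ N : ℕ, 3 ≤ N ∧ n ≤ N ∧ X / 2 ≤ gs A y N := by
    have h1 := hsum.hasSum.tendsto_sum_nat
    have h2 : ∀ᶠ N in Filter.atTop, X / 2 < ∑ i ∈ range N, A i * y ^ i :=
      h1.eventually (lt_mem_nhds (by linarith))
    obtain ⟨N, hN, hN'⟩ := (h2.and (Filter.eventually_ge_atTop (max 3 n))).exists
    exact ⟨N, (le_max_left _ _).trans hN', (le_max_right _ _).trans hN', hN.le⟩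
  have i1 := H.A_le hy0 hy1 N
  have i2 := H.D_le hy0 hy1 hn hN2 hX
  have i3 := H.H_le hs1 hN1 hX hXlow
  rw [← hG, ← hy] at i3
  have hDnn := H.D0 n n
  -- the small part
  have j1 : 7 * M * (2 * (K * 2 ^ E * (n : ℝ) ^ (E + 1)) * gs h y N) ≤ X / 4 := by
    have e1 : (s : ℝ) ^ (-(κ / 2)) * (R * (n : ℝ) ^ (E + 1)) ≤ 1 := by
      calc (s : ℝ) ^ (-(κ / 2)) * (R * (n : ℝ) ^ (E + 1)) ≤ (s : ℝ) ^ (-(κ / 2)) * (s : ℝ) ^ (κ / 2) := by
            gcongr
        _ = 1 := by rw [← Real.rpow_add hs0, neg_add_cancel, Real.rpow_zero]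
    have e0 : 0 < (s : ℝ) ^ (-(κ / 2)) := Real.rpow_pos_of_pos hs0 _
    calc 7 * M * (2 * (K * 2 ^ E * (n : ℝ) ^ (E + 1)) * gs h y N)
        ≤ 7 * M * (2 * (K * 2 ^ E * (n : ℝ) ^ (E + 1)) * (G * (s : ℝ) ^ (-(κ / 2)) * X)) := by gcongr
      _ = (56 * M * (K * 2 ^ E) * G) * ((s : ℝ) ^ (-(κ / 2)) * (n : ℝ) ^ (E + 1)) * (X / 4) := by ring
      _ ≤ R * ((s : ℝ) ^ (-(κ / 2)) * (n : ℝ) ^ (E + 1)) * (X / 4) := by gcongr
      _ = ((s : ℝ) ^ (-(κ / 2)) * (R * (n : ℝ) ^ (E + 1))) * (X / 4) := by ring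
      _ ≤ 1 * (X / 4) := by gcongr
      _ = X / 4 := one_mul _
  have j2 : X / 4 ≤ 7 * M * (D n n * X ^ 2) := by
    have : X / 2 ≤ 7 * M * (2 * (K * 2 ^ E * (n : ℝ) ^ (E + 1)) * gs h y N + D n n * X ^ 2) :=
      hN3.trans (i1.trans (mul_le_mul_of_nonneg_left i2 (by positivity)))
    linarith
  have j3 : 1 ≤ 28 * M * X * D n n := by
    have e1 : X * 1 ≤ X * (28 * M * X * D n n) := by nlinarith
    exact le_of_mul_le_mul_left e1 hX0
  -- the upper bound of `X`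
  have j4 : 28 * M * X ≤ L * (n : ℝ) ^ F := by
    have e1 : 4 * (s : ℝ) ≤ 8 * R ^ (2 / κ) * ((n : ℝ) ^ (E + 1)) ^ (2 / κ) := by
      have : z = R ^ (2 / κ) * ((n : ℝ) ^ (E + 1)) ^ (2 / κ) := by
        rw [hz, Real.mul_rpow hR0.le (by positivity)]
      calc 4 * (s : ℝ) ≤ 4 * (2 * z) := by linarith
        _ = _ := by rw [this]; ring
    have e2 : (((n : ℝ) ^ (E + 1)) ^ (2 / κ)) ^ (E + 1) = (n : ℝ) ^ F := by
      rw [← Real.rpow_natCast (n : ℝ) (E + 1), ← Real.rpow_mul hn0.le, ← Real.rpow_natCast, ← Real.rpow_mul hn0.le]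
      congr 1
      rw [hF]
      push_cast
      ring
    calc 28 * M * X ≤ 28 * M * (K * (E.factorial : ℝ) * (4 * (s : ℝ)) ^ (E + 1)) := by gcongr
      _ ≤ 28 * M * (K * (E.factorial : ℝ) * (8 * R ^ (2 / κ) * ((n : ℝ) ^ (E + 1)) ^ (2 / κ)) ^ (E + 1)) := by
          gcongr
      _ = L * (((n : ℝ) ^ (E + 1)) ^ (2 / κ)) ^ (E + 1) := by rw [mul_pow, hL]; ring
      _ = L * (n : ℝ) ^ F := by rw [e2]
  -- conclusion
  have j5 : 1 ≤ L * (n : ℝ) ^ F * D n n := j3.trans (mul_le_mul_of_nonneg_right j4 hDnn)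
  rw [div_le_iff₀ (lt_max_of_lt_left hL0)]
  have e1 : (n : ℝ) ^ (-(max L F)) ≤ (n : ℝ) ^ (-F) :=
    Real.rpow_le_rpow_of_exponent_le hn1 (neg_le_neg (le_max_right _ _))
  have e2 : (n : ℝ) ^ (-F) * (n : ℝ) ^ F = 1 := by
    rw [← Real.rpow_add hn0, neg_add_cancel, Real.rpow_zero]
  have e3 : 0 < (n : ℝ) ^ (-F) := Real.rpow_pos_of_pos hn0 _
  calc (n : ℝ) ^ (-(max L F)) ≤ (n : ℝ) ^ (-F) * 1 := by rw [mul_one]; exact e1
    _ ≤ (n : ℝ) ^ (-F) * (L * (n : ℝ) ^ F * D n n) := mul_le_mul_of_nonneg_left j5 e3.le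
    _ = D n n * L * ((n : ℝ) ^ (-F) * (n : ℝ) ^ F) := by ring
    _ = D n n * L := by rw [e2, mul_one]
    _ ≤ D n n * max L F := mul_le_mul_of_nonneg_left (le_max_left _ _) hDnn

end LowHyp

end Pool.Agent.RAT
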