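import Pool.Agent.RAT.D.MainOf
import Pool.Agent.RAT.U.Glue

/-!
Project RAT: the lower bound for the pairs of disjoint half-plane walks of equal length.
-/

namespace Pool.Agent.RAT

open Pool.Agent.Hhelper14.SAW

/-- At least `n ^ (-C) / C` of the pairs of half-plane walks of length `n` are disjoint (mass form). -/
theorem dn_low : ∃ C : ℝ, 0 < C ∧ ∀ n : ℕ, 1 ≤ n → (n : ℝ) ^ (-C) / C ≤ (dn n n : ℝ) / mu ^ (n + n) :=
  dn_low_of (by norm_num : (1 : ℝ) ≤ 2) glue_real

end Pool.Agent.RAT
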