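import Pool.Agent.RAT.D.Inst
import Pool.Agent.RAT.U.Five
import Pool.Agent.RAT.U.Dec

/-!
Project RAT: the lower bound for the pairs of disjoint half-plane walks of equal length, from the glueing inequality.
-/

namespace Pool.Agent.RAT

open Pool.Agent.Hhelper14.SAW

theorem dn_low_of {M : ℝ} (hM : 1 ≤ M)
    (glue : ∀ m, ((∑ p ∈ Finset.HasAntidiagonal.antidiagonal m, qi p.1 * cn true p.2 : ℕ) : ℝ) ≤ M * an (m + 1)) :
    ∃ C : ℝ, 0 < C ∧ ∀ n : ℕ, 1 ≤ n → (n : ℝ) ^ (-C) / C ≤ (dn n n : ℝ) / mu ^ (n + n) := by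
  obtain ⟨C, hC, h⟩ := low_inst hM cn_le_dec glue be_le io_sum_le io_two
  exact ⟨C, hC, fun n hn => by rw [← two_mul]; exact h n hn⟩

end Pool.Agent.RAT
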